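import Pool.Agent.H564R3.TS.Defs

/-!
Shortest paths in grids by pure programs: definitions.
-/

set_option autoImplicit false

namespace Pool.Agent.H564R3.GR

open Finset

/-- A monotone lattice path from `(0, 0)` to `(n, n)`: after `d` steps it is in the point
`(x d, d - x d)`; every step goes up (`x (d + 1) = x d`) or to the right
(`x (d + 1) = x d + 1`). -/
def IsPath {n : ℕ} (x : Fin (2 * n + 1) → Fin (n + 1)) : Prop :=
  (x 0).val = 0 ∧ (x (Fin.last (2 * n))).val = n ∧
    ∀ d : Fin (2 * n), (x d.succ).val = (x d.castSucc).val ∨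
      (x d.succ).val = (x d.castSucc).val + 1

instance {n : ℕ} (x : Fin (2 * n + 1) → Fin (n + 1)) : Decidable (IsPath x) := by
  unfold IsPath; infer_instance

/-- the edges of the grid: `(d, x, false)` is the edge from the point `(x, d - x)` to the right,
`(d, x, true)` is the edge from this point upwards -/
abbrev Edge (n : ℕ) : Type := Fin (2 * n) × Fin (n + 1) × Bool

/-- edge number `d` of the path `x` -/
def gv {n : ℕ} (x : Fin (2 * n + 1) → Fin (n + 1)) (d : Fin (2 * n)) : Edge n :=
  (d, x d.castSucc, decide (x d.succ = x d.castSucc))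

/-- The sum over all monotone lattice paths from `(0, 0)` to `(n, n)` of the product of the weights
of the edges (over the tropical semiring: the length of a shortest path). -/
def gridSum {R : Type} [CommSemiring R] {n : ℕ} (w : Edge n → R) : R :=
  ∑ x ∈ univ.filter (fun x : Fin (2 * n + 1) → Fin (n + 1) => IsPath x),
    ∏ d : Fin (2 * n), w (gv x d)

/-- the edges of a path -/
def gset {n : ℕ} (x : Fin (2 * n + 1) → Fin (n + 1)) : Finset (Edge n) := univ.image (gv x)

/-- the number of an edge -/
def gpos {n : ℕ} (e : Edge n) : Finset (Fin (2 * n)) := {e.1}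

/-- column of label `a` in window `l` -/
def colX (m l a : ℕ) : ℕ := m * l + a

/-- row of label `a` in window `l` -/
def rowY (m l a : ℕ) : ℕ := m * (l + 1) - a

/-- The staircase with the corners given by the labels `a 0, ..., a L`: horizontally in row
`rowY m (l - 1) (a (l - 1))` (row `0` for `l = 0`) to column `colX m l (a l)` (column `n` for
`l = L + 1`), then upwards. The value is the column after `d` steps. -/
def stair (n m L : ℕ) (a : ℕ → ℕ) (d : ℕ) : ℕ :=
  (range (L + 2)).sup fun l =>
    min (if l = L + 1 then n else colX m l (a l)) (d - if l = 0 then 0 else rowY m (l - 1) (a (l - 1)))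

/-- the staircase of a labelling -/
def route {n m L : ℕ} (φ : Fin (L + 1) → Fin m) (d : Fin (2 * n + 1)) : Fin (n + 1) :=
  Fin.ofNat (n + 1) (stair n m L (fun l => if h : l < L + 1 then (φ ⟨l, h⟩).val else 0) d)

/-- the class of a labelling in a point of time: is the staircase still horizontal? -/
def early {m L : ℕ} (φ : Fin (L + 1) → Fin m) (d : ℕ) : Bool :=
  decide (∀ (h₁ : (d - m) / (2 * m) < L + 1) (h₂ : (d - m) / (2 * m) + 1 < L + 1),
    d + (φ ⟨_, h₁⟩).val ≤ 2 * m * ((d - m) / (2 * m) + 1) + (φ ⟨_, h₂⟩).val)

end Pool.Agent.H564R3.GR
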