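import Pool.Agent.H564R3.GR.Defs
import Pool.Agent.H564R3.CY.Gen

/-! Task A: counting with keys. -/

set_option autoImplicit false

namespace Pool.Agent.H564R3.GR

open Finset
open Pool.Agent.H564R3.PW (Instr runs exec syms)
open Pool.Agent.H564R3.TS

theorem gen_count2 {R X E V ρ K : Type} [Zero R] [DecidableEq X] [Fintype E] [DecidableEq E]
    [Fintype V] [DecidableEq V] [Fintype ρ] [DecidableEq ρ] [Fintype K] [DecidableEq K] {m : ℕ}
    (hm : 1 ≤ m) {sup : X → Finset E} (p : List (Instr R X ρ)) (o : ρ)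
    (hT : Cov sup (syms p o)) (A : (V → Fin m) → Finset X)
    (hA : ∀ φ, Exact sup 1 univ (A φ)) (hmem : ∀ φ, ind (A φ) ∈ syms p o)
    (D M H k r : ℕ) (hD : 1 ≤ D) (hM : 1 ≤ M) (hr : 1 ≤ r)
    (key : List (Finset E) → (V → Fin m) → K)
    (hdet : ∀ L : List (Finset E), L.length = r → PW.Priv D L → D ≤ (univ \ PW.un L).card →
      ∀ c : K, ∃ Xs : Finset V, k * r ≤ Xs.card ∧ ∀ φ ψ : V → Fin m, key L φ = c → key L ψ = c →
        (∀ Z ∈ L, ∃ Y ⊆ A φ, ∃ Y' ⊆ A ψ, Y.biUnion sup = Z ∧ Y'.biUnion sup = Z ∧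
          ind (A φ \ Y) + ind Y' ∈ syms p o) → ∀ v ∈ Xs, φ v = ψ v)
    (hlen : p.length ≤ M ^ H) (hn : (2 * D + 1) * 8 ^ H * 64 ^ r ≤ Fintype.card E) :
    (m ^ k) ^ r ≤ (4 * M) ^ (H + r) * Fintype.card ρ ^ r * Fintype.card K := by
  classical
  choose z x hx g L hL hF hC hz hP hE using
    fun φ => CY.CYA_code p o hT (A φ) (hA φ) (hmem φ) D M H r hD hM hlen hn
  choose Xs hXs hagree using
    fun φ => hdet (L φ) (hL φ) (hP φ) (hE φ) (key (L φ) φ)
  -- equal codes: the position sets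
  have hset : ∀ φ ψ, x φ = x ψ → g φ = g ψ → ∀ j : Fin r,
      (L φ)[j]'(by rw [hL φ]; exact j.2) = (L ψ)[j]'(by rw [hL ψ]; exact j.2) ∧
      ∃ Y ⊆ A φ, ∃ Y' ⊆ A ψ, Y.biUnion sup = (L φ)[j]'(by rw [hL φ]; exact j.2) ∧
        Y'.biUnion sup = (L φ)[j]'(by rw [hL φ]; exact j.2) ∧
          ind (A φ \ Y) + ind Y' ∈ syms p o := by
    intro φ ψ hxe hge j
    obtain ⟨a1, a2, a3⟩ := hz φ j
    obtain ⟨b1, b2, b3⟩ := hz ψ j
    have ht : (x φ)[j]'(by rw [hx φ]; exact j.2) = (x ψ)[j]'(by rw [hx ψ]; exact j.2) := by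
      simp only [hxe]
    have c1 := hC φ _ a1
    have c2 := hC ψ _ b1
    rw [← ht] at c2 b2
    rw [← hge] at b2
    have n1 : (z φ ((x φ)[j]'(by rw [hx φ]; exact j.2)) (g φ j)).Nonempty :=
      CY.CYA_ne (sup := sup) (by rw [a2]; exact a3)
    have n2 : (z ψ ((x φ)[j]'(by rw [hx φ]; exact j.2)) (g φ j)).Nonempty :=
      CY.CYA_ne (sup := sup) (by rw [b2]; exact b3)
    have e1 := config_unique hT (hA φ) (hA ψ) c1 c2 (g φ j) n1 n2
    have e2 := SV.X_ctx c1 n1 (c2.mem _ n2)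
    refine ⟨?_, _, c1.sub (g φ j), _, c2.sub (g φ j), a2, ?_, e2⟩
    · rw [← a2, ← b2]; exact e1
    · rw [← a2]; exact e1.symm
  have hLeq : ∀ φ ψ, x φ = x ψ → g φ = g ψ → L φ = L ψ := by
    intro φ ψ hxe hge
    apply List.ext_getElem
    · rw [hL φ, hL ψ]
    · intro i h1 h2
      exact (hset φ ψ hxe hge ⟨i, by rw [← hL φ]; exact h1⟩).1
  have hcode : ∀ φ ψ, x φ = x ψ → g φ = g ψ → key (L φ) φ = key (L ψ) ψ →
      ∀ v ∈ Xs φ, φ v = ψ v := by
    intro φ ψ hxe hge hke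
    apply hagree φ φ ψ rfl
    · rw [hke, hLeq φ ψ hxe hge]
    · intro Z hZ
      obtain ⟨i, hi, rfl⟩ := List.getElem_of_mem hZ
      exact (hset φ ψ hxe hge ⟨i, by rw [← hL φ]; exact hi⟩).2
  -- counting
  have hfib : ∀ c ∈ (PW.F M H r 0) ×ˢ ((univ : Finset (Fin r → ρ)) ×ˢ (univ : Finset K)),
      ((univ : Finset (V → Fin m)).filter (fun φ => (x φ, g φ, key (L φ) φ) = c)).card ≤
        m ^ (Fintype.card V - k * r) := by
    intro c _
    by_cases hne : ∃ φ₀, (x φ₀, g φ₀, key (L φ₀) φ₀) = c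
    · obtain ⟨φ₀, hφ₀⟩ := hne
      have hcard : Fintype.card (↥(Xs φ₀)ᶜ → Fin m) ≤ m ^ (Fintype.card V - k * r) := by
        rw [Fintype.card_fun, Fintype.card_fin, Fintype.card_coe, card_compl]
        apply Nat.pow_le_pow_right hm
        exact Nat.sub_le_sub_left (hXs φ₀) _
      refine le_trans ?_ hcard
      rw [← Fintype.card_coe]
      apply Fintype.card_le_of_injective (fun ψ => fun v : ↥(Xs φ₀)ᶜ => ψ.1 v.1)
      intro ψ ψ' h
      apply Subtype.ext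
      funext v
      have e1 := ψ.2
      have e2 := ψ'.2
      rw [mem_filter] at e1 e2
      have f1 : (x φ₀, g φ₀, key (L φ₀) φ₀) = (x ψ.1, g ψ.1, key (L ψ.1) ψ.1) := by
        rw [hφ₀, e1.2]
      have f2 : (x φ₀, g φ₀, key (L φ₀) φ₀) = (x ψ'.1, g ψ'.1, key (L ψ'.1) ψ'.1) := by
        rw [hφ₀, e2.2]
      rw [Prod.mk.injEq, Prod.mk.injEq] at f1 f2
      by_cases hv : v ∈ Xs φ₀
      · rw [← hcode φ₀ ψ.1 f1.1 f1.2.1 f1.2.2 v hv, ← hcode φ₀ ψ'.1 f2.1 f2.2.1 f2.2.2 v hv]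
      · exact congrFun h ⟨v, by rw [mem_compl]; exact hv⟩
    · rw [filter_eq_empty_iff.2 (fun φ _ h => hne ⟨φ, h⟩), card_empty]
      exact Nat.zero_le _
  have htot : (univ : Finset (V → Fin m)).card ≤
      m ^ (Fintype.card V - k * r) *
        ((PW.F M H r 0) ×ˢ ((univ : Finset (Fin r → ρ)) ×ˢ (univ : Finset K))).card :=
    card_le_mul_card_image_of_maps_to (f := fun φ => (x φ, g φ, key (L φ) φ)) (fun φ _ => by
      rw [mem_product, mem_product]; exact ⟨hF φ, mem_univ _, mem_univ _⟩) _ hfib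
  have hφ : ∃ φ : V → Fin m, True := ⟨fun _ => ⟨0, hm⟩, trivial⟩
  obtain ⟨φ₁, -⟩ := hφ
  have hkn : k * r ≤ Fintype.card V := (hXs φ₁).trans (card_le_univ _)
  rw [card_univ, Fintype.card_fun, Fintype.card_fin, card_product, card_product, card_univ,
    card_univ, Fintype.card_fun, Fintype.card_fin] at htot
  have hpos : 0 < m ^ (Fintype.card V - k * r) := Nat.pow_pos hm
  have h5 : m ^ (Fintype.card V) = m ^ (Fintype.card V - k * r) * m ^ (k * r) := by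
    rw [← pow_add, Nat.sub_add_cancel hkn]
  rw [h5] at htot
  have h6 := Nat.le_of_mul_le_mul_left htot hpos
  rw [← pow_mul]
  refine h6.trans ?_
  rw [← mul_assoc]
  exact Nat.mul_le_mul_right _ (Nat.mul_le_mul_right _ (PW.card_F M H r 0 hM))

end Pool.Agent.H564R3.GR
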