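import Pool.Agent.H564R3.GR.Defs

/-! Grids: basic facts about the sets of edges of monotone lattice paths (task C). -/

set_option autoImplicit false

namespace Pool.Agent.H564R3.GR

open Finset
open Pool.Agent.H564R3.PW (Instr runs exec syms)
open Pool.Agent.H564R3.TS

theorem GRC_gv_inj {n : ℕ} (x : Fin (2 * n + 1) → Fin (n + 1)) : Function.Injective (gv x) := by
  intro i j h
  exact congrArg Prod.fst h

theorem GRC_mem_gset {n : ℕ} (x : Fin (2 * n + 1) → Fin (n + 1)) (e : Edge n) :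
    e ∈ gset x ↔ e = gv x e.1 := by
  constructor
  · intro h
    obtain ⟨i, -, rfl⟩ := mem_image.mp h
    rfl
  · intro h
    rw [h]
    exact mem_image_of_mem _ (mem_univ _)

theorem GRC_mem_biUnion {n : ℕ} (Y : Finset (Edge n)) (i : Fin (2 * n)) :
    i ∈ Y.biUnion gpos ↔ ∃ y ∈ Y, y.1 = i := by
  simp only [mem_biUnion, gpos, mem_singleton]
  constructor
  · rintro ⟨y, hy, rfl⟩; exact ⟨y, hy, rfl⟩
  · rintro ⟨y, hy, rfl⟩; exact ⟨y, hy, rfl⟩

theorem grid_exact {n : ℕ} (x : Fin (2 * n + 1) → Fin (n + 1)) : Exact gpos 1 univ (gset x) := by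
  refine ⟨fun x _ => by simp [gpos], fun x _ => subset_univ _, ?_, ?_⟩
  · intro e he e' he' hne
    rw [GRC_mem_gset] at he he'
    simp only [gpos, disjoint_singleton]
    intro h
    apply hne
    rw [he, he', h]
  · intro e _
    exact ⟨gv x e, mem_image_of_mem _ (mem_univ _), by simp [gpos, gv]⟩

theorem grid_card {n : ℕ} (x : Fin (2 * n + 1) → Fin (n + 1)) : (gset x).card = 2 * n := by
  unfold gset
  rw [card_image_of_injective _ (GRC_gv_inj x), card_univ, Fintype.card_fin]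

/-- the beginning of the edge -/
theorem GRC_fst {n : ℕ} {x y : Fin (2 * n + 1) → Fin (n + 1)} {d : Fin (2 * n)}
    (h : gv x d = gv y d) : x d.castSucc = y d.castSucc := congrArg (fun e => e.2.1) h

/-- the end of the edge -/
theorem GRC_snd {n : ℕ} {x y : Fin (2 * n + 1) → Fin (n + 1)} (hx : IsPath x) (hy : IsPath y)
    {d : Fin (2 * n)} (h : gv x d = gv y d) : x d.succ = y d.succ := by
  have h1 := congrArg Fin.val (GRC_fst h)
  have h2 : decide (x d.succ = x d.castSucc) = decide (y d.succ = y d.castSucc) :=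
    congrArg (fun e => e.2.2) h
  rw [decide_eq_decide, Fin.ext_iff, Fin.ext_iff] at h2
  apply Fin.ext
  rcases hx.2.2 d with h3 | h3 <;> rcases hy.2.2 d with h4 | h4 <;> omega

theorem GRC_inj {n : ℕ} {x y : Fin (2 * n + 1) → Fin (n + 1)} (hx : IsPath x) (hy : IsPath y)
    (h : gset x = gset y) : x = y := by
  funext i
  have h1 : ∀ d : Fin (2 * n), gv x d = gv y d := by
    intro d
    have h2 : gv x d ∈ gset y := by
      rw [← h]; exact mem_image_of_mem _ (mem_univ _)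
    exact (GRC_mem_gset y _).mp h2
  rcases Nat.lt_or_ge i.val (2 * n) with hi | hi
  · exact GRC_fst (h1 ⟨i.val, hi⟩)
  · have e : i = Fin.last (2 * n) := Fin.ext (by
      have := i.2
      simp only [Fin.val_last]
      omega)
    rw [e]
    exact Fin.ext (hx.2.1.trans hy.2.1.symm)

theorem grid_sum {R : Type} [CommSemiring R] {n : ℕ} (w : Edge n → R) :
    gridSum w = ∑ A ∈ (univ.filter (fun x : Fin (2 * n + 1) → Fin (n + 1) => IsPath x)).image gset,
      ∏ e ∈ A, w e := by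
  rw [sum_image (fun a ha b hb h => GRC_inj (mem_filter.mp ha).2 (mem_filter.mp hb).2 h)]
  unfold gridSum gset
  refine sum_congr rfl fun x _ => ?_
  rw [prod_image (fun a _ b _ h => GRC_gv_inj x h)]

theorem grid_type {n : ℕ} {T : Set (Edge n → ℕ)}
    (hT : ∀ u ∈ T, ∃ χ : Fin (2 * n + 1) → Fin (n + 1), IsPath χ ∧ ∀ d, u (gv χ d) ≠ 0)
    (x x' : Fin (2 * n + 1) → Fin (n + 1)) (hx : IsPath x) (hx' : IsPath x')
    (Y Z : Finset (Edge n)) (hY : Y ⊆ gset x)
    (hZ : Z ⊆ gset x') (hpos : Y.biUnion gpos = Z.biUnion gpos)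
    (h : ind (gset x \ Y) + ind Z ∈ T) (d : ℕ) (h1 : d < 2 * n) (h2 : d + 1 < 2 * n)
    (hd : ¬ ((⟨d, h1⟩ : Fin (2 * n)) ∈ Y.biUnion gpos ↔
      (⟨d + 1, h2⟩ : Fin (2 * n)) ∈ Y.biUnion gpos)) :
    x ⟨d + 1, by omega⟩ = x' ⟨d + 1, by omega⟩ := by
  obtain ⟨χ, hp, hχ⟩ := hT _ h
  have hor : ∀ i, gv χ i ∈ gset x \ Y ∨ gv χ i ∈ Z := by
    intro i
    by_contra hcon
    rw [not_or] at hcon
    apply hχ i
    simp only [Pi.add_apply, ind, if_neg hcon.1, if_neg hcon.2]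
  have hout : ∀ i, i ∉ Y.biUnion gpos → gv χ i = gv x i := by
    intro i hi
    rcases hor i with h1 | h1
    · exact (GRC_mem_gset x _).mp (mem_sdiff.mp h1).1
    · exact absurd ((GRC_mem_biUnion Z i).mpr ⟨_, h1, rfl⟩) (hpos ▸ hi)
  have hin : ∀ i, i ∈ Y.biUnion gpos → gv χ i = gv x' i := by
    intro i hi
    rcases hor i with h1 | h1
    · obtain ⟨y, hy, rfl⟩ := (GRC_mem_biUnion Y i).mp hi
      have h2 : gv χ y.1 = gv x y.1 := (GRC_mem_gset x _).mp (mem_sdiff.mp h1).1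
      have h3 : y = gv x y.1 := (GRC_mem_gset x _).mp (hY hy)
      exfalso
      apply (mem_sdiff.mp h1).2
      rw [h2, ← h3]
      exact hy
    · exact (GRC_mem_gset x' _).mp (hZ h1)
  by_cases ha : (⟨d, h1⟩ : Fin (2 * n)) ∈ Y.biUnion gpos
  · have hb : (⟨d + 1, h2⟩ : Fin (2 * n)) ∉ Y.biUnion gpos := fun hb => hd ⟨fun _ => hb, fun _ => ha⟩
    have h3 : χ ⟨d + 1, by omega⟩ = x' ⟨d + 1, by omega⟩ := GRC_snd hp hx' (hin _ ha)
    have h4 : χ ⟨d + 1, by omega⟩ = x ⟨d + 1, by omega⟩ := GRC_fst (hout _ hb)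
    exact h4.symm.trans h3
  · have hb : (⟨d + 1, h2⟩ : Fin (2 * n)) ∈ Y.biUnion gpos := by
      by_contra hb
      exact hd ⟨fun h => absurd h ha, fun h => absurd h hb⟩
    have h3 : χ ⟨d + 1, by omega⟩ = x ⟨d + 1, by omega⟩ := GRC_snd hp hx (hout _ ha)
    have h4 : χ ⟨d + 1, by omega⟩ = x' ⟨d + 1, by omega⟩ := GRC_fst (hin _ hb)
    exact h3.symm.trans h4

end Pool.Agent.H564R3.GR
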