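import Pool.Agent.H564R3.GR.Defs

/-!
# Shortest paths in grids by pure programs: the staircases
-/

set_option autoImplicit false

namespace Pool.Agent.H564R3.GR

open Finset

section

variable {n m L : ℕ} {a : ℕ → ℕ}

/-- the column of the corner `l` -/
def GRD_X (n m L : ℕ) (a : ℕ → ℕ) (l : ℕ) : ℕ := if l = L + 1 then n else colX m l (a l)

/-- the row of the piece `l` -/
def GRD_Y (m : ℕ) (a : ℕ → ℕ) (l : ℕ) : ℕ := if l = 0 then 0 else rowY m (l - 1) (a (l - 1))

theorem GRD_stair (d : ℕ) : stair n m L a d =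
    (range (L + 2)).sup fun l => min (GRD_X n m L a l) (d - GRD_Y m a l) := rfl

theorem GRD_X_of {l : ℕ} (hl : l ≤ L) : GRD_X n m L a l = m * l + a l := by
  unfold GRD_X colX
  rw [if_neg (by omega)]

theorem GRD_X_last : GRD_X n m L a (L + 1) = n := by
  unfold GRD_X
  rw [if_pos rfl]

theorem GRD_Y_zero : GRD_Y m a 0 = 0 := rfl

theorem GRD_Y_succ (l : ℕ) : GRD_Y m a (l + 1) = m * (l + 1) - a l := rfl

theorem GRD_X_le (ha : ∀ l, a l < m) {k : ℕ} (hk : k ≤ L) : GRD_X n m L a k ≤ m * (k + 1) := by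
  rw [GRD_X_of hk, Nat.mul_succ]
  have := ha k
  omega

theorem GRD_X_ge (hn : m * (L + 1) ≤ n) {l : ℕ} (hl : l ≤ L + 1) : m * l ≤ GRD_X n m L a l := by
  rcases Nat.lt_or_ge l (L + 1) with h | h
  · rw [GRD_X_of (by omega)]
    omega
  · have e : l = L + 1 := by omega
    rw [e, GRD_X_last]
    exact hn

theorem GRD_Y_le (k : ℕ) : GRD_Y m a k ≤ m * k := by
  cases k with
  | zero => rw [GRD_Y_zero]; exact Nat.zero_le _
  | succ k => rw [GRD_Y_succ]; exact Nat.sub_le _ _

theorem GRD_Y_ge (ha : ∀ l, a l < m) (l : ℕ) : m * l ≤ GRD_Y m a (l + 1) := by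
  rw [GRD_Y_succ, Nat.mul_succ]
  have := ha l
  omega

theorem GRD_X_mono (ha : ∀ l, a l < m) (hn : m * (L + 1) ≤ n) {k l : ℕ} (hkl : k ≤ l)
    (hl : l ≤ L + 1) : GRD_X n m L a k ≤ GRD_X n m L a l := by
  rcases Nat.eq_or_lt_of_le hkl with h | h
  · rw [h]
  · exact (GRD_X_le ha (by omega)).trans ((Nat.mul_le_mul_left m h).trans (GRD_X_ge hn hl))

theorem GRD_Y_mono (ha : ∀ l, a l < m) {k l : ℕ} (hkl : k ≤ l) :
    GRD_Y m a k ≤ GRD_Y m a l := by
  rcases Nat.eq_or_lt_of_le hkl with h | h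
  · rw [h]
  · obtain ⟨l, rfl⟩ : ∃ l', l = l' + 1 := ⟨l - 1, by omega⟩
    exact (GRD_Y_le k).trans ((Nat.mul_le_mul_left m (by omega)).trans (GRD_Y_ge ha l))

theorem GRD_le (ha : ∀ l, a l < m) (hn : m * (L + 1) ≤ n) (d : ℕ) : stair n m L a d ≤ n := by
  rw [GRD_stair]
  refine Finset.sup_le fun l hl => ?_
  rw [Finset.mem_range] at hl
  have h1 : GRD_X n m L a l ≤ GRD_X n m L a (L + 1) := GRD_X_mono ha hn (by omega) le_rfl
  rw [GRD_X_last] at h1
  exact (Nat.min_le_left _ _).trans h1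

theorem GRD_zero : stair n m L a 0 = 0 := by
  rw [GRD_stair]
  refine Nat.le_zero.1 (Finset.sup_le fun l _ => ?_)
  omega

theorem GRD_end (ha : ∀ l, a l < m) (hn : m * (L + 1) ≤ n) : stair n m L a (2 * n) = n := by
  refine le_antisymm (GRD_le ha hn _) ?_
  have h1 := Finset.le_sup (f := fun l => min (GRD_X n m L a l) (2 * n - GRD_Y m a l))
    (show L + 1 ∈ range (L + 2) by rw [Finset.mem_range]; omega)
  rw [← GRD_stair] at h1
  have h2 : min (GRD_X n m L a (L + 1)) (2 * n - GRD_Y m a (L + 1)) ≤ stair n m L a (2 * n) := h1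
  rw [GRD_X_last] at h2
  have h3 := GRD_Y_le (m := m) (a := a) (L + 1)
  omega

theorem GRD_step_ge (d : ℕ) : stair n m L a d ≤ stair n m L a (d + 1) := by
  rw [GRD_stair, GRD_stair]
  refine Finset.sup_mono_fun fun l _ => ?_
  omega

theorem GRD_step_le (d : ℕ) : stair n m L a (d + 1) ≤ stair n m L a d + 1 := by
  rw [GRD_stair, GRD_stair]
  refine Finset.sup_le fun l hl => ?_
  have h1 := Finset.le_sup (f := fun l => min (GRD_X n m L a l) (d - GRD_Y m a l)) hl
  have h2 : min (GRD_X n m L a l) (d - GRD_Y m a l) ≤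
    (range (L + 2)).sup fun l => min (GRD_X n m L a l) (d - GRD_Y m a l) := h1
  omega

/-- the horizontal pieces -/
theorem GRD_hor (ha : ∀ l, a l < m) (hn : m * (L + 1) ≤ n) {l d : ℕ} (hl : l < L)
    (h1 : 2 * m * l + m ≤ d) (h2 : d + a l ≤ 2 * m * (l + 1) + a (l + 1)) :
    stair n m L a d + m * (l + 1) = d + a l := by
  have e1 : 2 * m * l + m = m * l + m * (l + 1) := by ring
  have e2 : 2 * m * (l + 1) = m * (l + 1) + m * (l + 1) := by ring
  have e3 : m * (l + 1) = m * l + m := by ring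
  have hal := ha l
  have hY : GRD_Y m a (l + 1) = m * (l + 1) - a l := GRD_Y_succ l
  have hst : stair n m L a d = d - GRD_Y m a (l + 1) := by
    refine le_antisymm ?_ ?_
    · rw [GRD_stair]
      refine Finset.sup_le fun k hk => ?_
      rw [Finset.mem_range] at hk
      rcases Nat.lt_or_ge l k with h | h
      · have h3 : GRD_Y m a (l + 1) ≤ GRD_Y m a k := GRD_Y_mono ha h
        omega
      · have h3 : GRD_X n m L a k ≤ GRD_X n m L a l := GRD_X_mono ha hn h (by omega)
        rw [GRD_X_of (l := l) (by omega)] at h3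
        omega
    · have h3 := Finset.le_sup (f := fun l => min (GRD_X n m L a l) (d - GRD_Y m a l))
        (show l + 1 ∈ range (L + 2) by rw [Finset.mem_range]; omega)
      rw [← GRD_stair] at h3
      have h4 : min (GRD_X n m L a (l + 1)) (d - GRD_Y m a (l + 1)) ≤ stair n m L a d := h3
      rw [GRD_X_of (l := l + 1) (by omega)] at h4
      omega
  omega

/-- the vertical pieces -/
theorem GRD_ver (ha : ∀ l, a l < m) (hn : m * (L + 1) ≤ n) {l d : ℕ} (hl : l < L)
    (h1 : d < 2 * m * l + 3 * m) (h2 : 2 * m * (l + 1) + a (l + 1) < d + a l) :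
    stair n m L a d = m * (l + 1) + a (l + 1) := by
  have e1 : 2 * m * l + 3 * m = m * (l + 1) + m * (l + 2) := by ring
  have e2 : 2 * m * (l + 1) = m * (l + 1) + m * (l + 1) := by ring
  have e3 : m * (l + 1) = m * l + m := by ring
  have e4 : m * (l + 2) = m * l + 2 * m := by ring
  have hal := ha l
  have hal' := ha (l + 1)
  have hY : GRD_Y m a (l + 1) = m * (l + 1) - a l := GRD_Y_succ l
  have hY' : GRD_Y m a (l + 2) = m * (l + 2) - a (l + 1) := GRD_Y_succ (l + 1)
  refine le_antisymm ?_ ?_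
  · rw [GRD_stair]
    refine Finset.sup_le fun k hk => ?_
    rw [Finset.mem_range] at hk
    rcases Nat.lt_or_ge (l + 1) k with h | h
    · have h3 : GRD_Y m a (l + 2) ≤ GRD_Y m a k := GRD_Y_mono ha h
      omega
    · have h3 : GRD_X n m L a k ≤ GRD_X n m L a (l + 1) := GRD_X_mono ha hn h (by omega)
      rw [GRD_X_of (l := l + 1) (by omega)] at h3
      omega
  · have h3 := Finset.le_sup (f := fun l => min (GRD_X n m L a l) (d - GRD_Y m a l))
      (show l + 1 ∈ range (L + 2) by rw [Finset.mem_range]; omega)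
    rw [← GRD_stair] at h3
    have h4 : min (GRD_X n m L a (l + 1)) (d - GRD_Y m a (l + 1)) ≤ stair n m L a d := h3
    rw [GRD_X_of (l := l + 1) (by omega)] at h4
    omega

end

/-- the labels as a function on the natural numbers -/
def GRD_a {m L : ℕ} (φ : Fin (L + 1) → Fin m) (l : ℕ) : ℕ :=
  if h : l < L + 1 then (φ ⟨l, h⟩).val else 0

theorem GRD_a_lt {m L : ℕ} (hm : 1 ≤ m) (φ : Fin (L + 1) → Fin m) (l : ℕ) : GRD_a φ l < m := by
  unfold GRD_a
  split_ifs with h
  · exact (φ ⟨l, h⟩).isLt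
  · omega

theorem GRD_a_of {m L : ℕ} (φ : Fin (L + 1) → Fin m) {l : ℕ} (h : l < L + 1) :
    GRD_a φ l = (φ ⟨l, h⟩).val := by
  unfold GRD_a
  rw [dif_pos h]

theorem GRD_route_val {n m L : ℕ} (hm : 1 ≤ m) (hn : m * (L + 1) ≤ n) (φ : Fin (L + 1) → Fin m)
    (d : Fin (2 * n + 1)) : (route (n := n) φ d).val = stair n m L (GRD_a φ) d := by
  have h := GRD_le (GRD_a_lt hm φ) hn d
  show stair n m L (GRD_a φ) d % (n + 1) = _
  exact Nat.mod_eq_of_lt (by omega)

theorem route_path {n m L : ℕ} (hm : 1 ≤ m) (hn : m * (L + 1) ≤ n) (φ : Fin (L + 1) → Fin m) :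
    IsPath (route (n := n) φ) := by
  refine ⟨?_, ?_, fun d => ?_⟩
  · rw [GRD_route_val hm hn]
    exact GRD_zero
  · rw [GRD_route_val hm hn]
    exact GRD_end (GRD_a_lt hm φ) hn
  · rw [GRD_route_val hm hn, GRD_route_val hm hn]
    have h1 := GRD_step_ge (n := n) (m := m) (L := L) (a := GRD_a φ) d.val
    have h2 := GRD_step_le (n := n) (m := m) (L := L) (a := GRD_a φ) d.val
    rw [Fin.val_succ, Fin.val_castSucc]
    omega

theorem route_det {n m L : ℕ} (hm : 1 ≤ m) (hn : m * (L + 1) ≤ n) (φ ψ : Fin (L + 1) → Fin m)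
    (d : ℕ) (hd1 : m ≤ d) (hd2 : d < 2 * m * L + m) (hd : d < 2 * n + 1)
    (hxy : route (n := n) φ ⟨d, hd⟩ = route (n := n) ψ ⟨d, hd⟩)
    (hk : early φ d = early ψ d) (v : Fin (L + 1))
    (hv : v.val = if early φ d = true then (d - m) / (2 * m) else (d - m) / (2 * m) + 1) :
    φ v = ψ v := by
  obtain ⟨l, hl⟩ : ∃ l, l = (d - m) / (2 * m) := ⟨_, rfl⟩
  have hlL : l < L := by
    rw [hl, Nat.div_lt_iff_lt_mul (by omega)]
    have : L * (2 * m) = 2 * m * L := by ring
    omega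
  have hb1 : 2 * m * l + m ≤ d := by
    have := Nat.mul_div_le (d - m) (2 * m)
    rw [← hl] at this
    omega
  have hb2 : d < 2 * m * l + 3 * m := by
    have := Nat.lt_mul_div_succ (d - m) (show 0 < 2 * m by omega)
    rw [← hl, Nat.mul_succ] at this
    omega
  have hst : stair n m L (GRD_a φ) d = stair n m L (GRD_a ψ) d := by
    have h1 := GRD_route_val hm hn φ ⟨d, hd⟩
    have h2 := GRD_route_val hm hn ψ ⟨d, hd⟩
    rw [hxy] at h1
    exact h1.symm.trans h2
  have hearly : ∀ χ : Fin (L + 1) → Fin m, early χ d = true ↔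
      d + GRD_a χ l ≤ 2 * m * (l + 1) + GRD_a χ (l + 1) := by
    intro χ
    unfold early
    rw [decide_eq_true_iff, ← hl]
    constructor
    · intro h
      have h1 := h (by omega) (by omega)
      rwa [GRD_a_of χ (show l < L + 1 by omega), GRD_a_of χ (show l + 1 < L + 1 by omega)]
    · intro h h1 h2
      rwa [GRD_a_of χ h1, GRD_a_of χ h2] at h
  rw [← hl] at hv
  by_cases h : early φ d = true
  · rw [if_pos h] at hv
    have hψ : early ψ d = true := by rw [← hk]; exact h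
    have h1 := GRD_hor (n := n) (GRD_a_lt hm φ) hn hlL hb1 ((hearly φ).1 h)
    have h2 := GRD_hor (n := n) (GRD_a_lt hm ψ) hn hlL hb1 ((hearly ψ).1 hψ)
    have h3 : GRD_a φ l = GRD_a ψ l := by omega
    rw [GRD_a_of φ (show l < L + 1 by omega), GRD_a_of ψ (show l < L + 1 by omega)] at h3
    have e : v = ⟨l, by omega⟩ := Fin.ext hv
    rw [e]
    exact Fin.ext h3
  · rw [if_neg h] at hv
    have hψ : ¬ early ψ d = true := by rw [← hk]; exact h
    have h1 := GRD_ver (n := n) (GRD_a_lt hm φ) hn hlL hb2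
      (Nat.lt_of_not_le fun h' => h ((hearly φ).2 h'))
    have h2 := GRD_ver (n := n) (GRD_a_lt hm ψ) hn hlL hb2
      (Nat.lt_of_not_le fun h' => hψ ((hearly ψ).2 h'))
    have h3 : GRD_a φ (l + 1) = GRD_a ψ (l + 1) := by omega
    rw [GRD_a_of φ (show l + 1 < L + 1 by omega), GRD_a_of ψ (show l + 1 < L + 1 by omega)] at h3
    have e : v = ⟨l + 1, by omega⟩ := Fin.ext hv
    rw [e]
    exact Fin.ext h3

end Pool.Agent.H564R3.GR
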