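import Pool.Agent.H564R3.GR.Defs
import Pool.Agent.H564R3.CY.StripIso

/-! Task B: separated changes. -/

set_option autoImplicit false

namespace Pool.Agent.H564R3.GR

open Finset
open Pool.Agent.H564R3.PW (Instr runs exec syms)
open Pool.Agent.H564R3.TS

theorem GRB_mono (c : ℕ → ℕ) (e s : ℕ) (h : ∀ t, s ≤ t → t + 1 < e → c t = c (t + 1)) :
    ∀ t, s ≤ t → t < e → c t = c s := by
  intro t hst
  induction t, hst using Nat.le_induction with
  | base => intro _; rfl
  | succ t ht ih =>
    intro he
    rw [← h t ht he]
    exact ih (by omega)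

/-- either `q` separated changes after `s`, or everything after `s` is covered by few
monochromatic blocks and few windows -/
theorem GRB_core (c : ℕ → ℕ) (g e : ℕ) : ∀ q s : ℕ,
    (∃ t : Fin q → ℕ, (∀ i, s ≤ t i ∧ t i + 1 < e ∧ c (t i) ≠ c (t i + 1)) ∧
      ∀ i j, i < j → t i + g ≤ t j) ∨
    ∃ C W : Finset ℕ, C.card ≤ q ∧ W.card + g ≤ q * g ∧ ∀ t, s ≤ t → t < e → t ∈ W ∨ c t ∈ C := by
  intro q
  induction q with
  | zero =>
    intro s
    left
    exact ⟨fun i => i.elim0, fun i => i.elim0, fun i => i.elim0⟩
  | succ q ih =>
    intro s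
    by_cases hex : ∃ t, s ≤ t ∧ t + 1 < e ∧ c t ≠ c (t + 1)
    · classical
      obtain ⟨h1, h2, h3⟩ := Nat.find_spec hex
      have hmin := fun t (ht : t < Nat.find hex) => Nat.find_min hex ht
      set t0 := Nat.find hex with ht0
      rcases ih (t0 + g) with ⟨t, h4, h5⟩ | ⟨C, W, h4, h5, h6⟩
      · left
        refine ⟨Fin.cons t0 t, ?_, ?_⟩
        · intro i
          refine Fin.cases ?_ (fun i => ?_) i
          · exact ⟨h1, h2, h3⟩
          · rw [Fin.cons_succ]
            exact ⟨by have := (h4 i).1; omega, (h4 i).2⟩
        · intro i j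
          refine Fin.cases ?_ (fun i => ?_) i
          · refine Fin.cases ?_ (fun j => ?_) j
            · intro h; exact absurd h (lt_irrefl _)
            · intro _
              rw [Fin.cons_zero, Fin.cons_succ]
              exact (h4 j).1
          · refine Fin.cases ?_ (fun j => ?_) j
            · intro h; exact absurd h (by simp)
            · intro h
              rw [Fin.cons_succ, Fin.cons_succ]
              exact h5 i j (by simpa using h)
      · right
        refine ⟨insert (c s) C, W ∪ Ico (t0 + 1) (t0 + g), ?_, ?_, ?_⟩
        · exact (card_insert_le _ _).trans (by omega)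
        · have h7 := card_union_le W (Ico (t0 + 1) (t0 + g))
          rw [Nat.card_Ico] at h7
          have h8 : (q + 1) * g = q * g + g := by ring
          rw [h8]
          omega
        · intro t hst hte
          by_cases h9 : t ≤ t0
          · right
            rw [mem_insert]
            left
            have h10 := GRB_mono c (t0 + 1) s (fun u hu1 hu2 => by
              by_contra hne
              exact hmin u (by omega) ⟨hu1, by omega, hne⟩)
            exact h10 t hst (by omega)
          · by_cases h11 : t < t0 + g
            · left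
              rw [mem_union, mem_Ico]
              right
              omega
            · rcases h6 t (by omega) hte with h12 | h12
              · left
                exact mem_union_left _ h12
              · right
                exact mem_insert_of_mem h12
    · right
      push Not at hex
      refine ⟨{c s}, ∅, by simp, ?_, ?_⟩
      · rw [card_empty, zero_add]
        exact Nat.le_mul_of_pos_left g (Nat.succ_pos q)
      · intro t hst hte
        right
        rw [mem_singleton]
        exact GRB_mono c e s hex t hst hte

theorem sep_changes (N r g s e : ℕ) (hr : 1 ≤ r) (hg : 1 ≤ g) (he : e ≤ N)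
    (L : List (Finset (Fin N))) (hL : L.length = r)
    (hP : PW.Priv (r * g + (N - (e - s))) L) (hE : r * g + (N - (e - s)) ≤ (univ \ PW.un L).card) :
    ∃ t : Fin r → ℕ, (∀ i, s ≤ t i ∧ t i + 1 < e ∧
      ∃ Z ∈ L, ∃ (h1 : t i < N) (h2 : t i + 1 < N),
        ¬ ((⟨t i, h1⟩ : Fin N) ∈ Z ↔ (⟨t i + 1, h2⟩ : Fin N) ∈ Z)) ∧
      ∀ i j, i < j → t i + g ≤ t j := by
  classical
  have hcol : ∀ c ≤ r, r * g + (N - (e - s)) ≤ (univ.filter fun t => CY.CYB_lam L t = c).card := by
    intro c hc
    rcases Nat.eq_zero_or_pos c with h0 | h0
    · subst h0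
      refine hE.trans (Finset.card_le_card ?_)
      intro t ht
      rw [Finset.mem_sdiff] at ht
      rw [Finset.mem_filter]
      exact ⟨Finset.mem_univ _, CY.CYB_zero L t ht.2⟩
    · exact CY.CYB_big L hP c h0 (by omega)
  rcases GRB_core (fun t => if h : t < N then CY.CYB_lam L ⟨t, h⟩ else 0) g e r s with
    ⟨t, h1, h2⟩ | ⟨C, W, h1, h2, h3⟩
  · refine ⟨t, fun i => ?_, h2⟩
    obtain ⟨h3, h4, h5⟩ := h1 i
    refine ⟨h3, h4, ?_⟩
    have h6 : t i < N := by omega
    have h7 : t i + 1 < N := by omega
    simp only [h6, h7, dif_pos] at h5
    by_contra h8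
    apply h5
    apply CY.CYB_same
    intro Z hZ
    by_contra h9
    exact h8 ⟨Z, hZ, h6, h7, h9⟩
  · exfalso
    have h4 : ∃ c ∈ range (r + 1), c ∉ C := by
      by_contra h5
      push Not at h5
      have := card_le_card h5
      rw [card_range] at this
      omega
    obtain ⟨c, hc, hcC⟩ := h4
    rw [mem_range] at hc
    have h5 := hcol c (by omega)
    have h6 : (univ.filter fun t => CY.CYB_lam L t = c).card ≤ ((range N \ Ico s e) ∪ W).card := by
      refine Finset.card_le_card_of_injOn (fun t : Fin N => t.val) ?_ ?_
      · intro t ht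
        have ht' := (Finset.mem_filter.1 (Finset.mem_coe.1 ht)).2
        refine Finset.mem_coe.2 ?_
        rw [mem_union, mem_sdiff, mem_range, mem_Ico]
        by_cases h7 : s ≤ t.val ∧ t.val < e
        · right
          rcases h3 t.val h7.1 h7.2 with h8 | h8
          · exact h8
          · exfalso
            simp only [t.2, dif_pos] at h8
            apply hcC
            rw [← ht']
            exact h8
        · left
          exact ⟨t.2, h7⟩
      · intro a _ b _ hab
        exact Fin.ext hab
    have h7 := card_union_le (range N \ Ico s e) W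
    have h8 : (range N \ Ico s e).card = N - (e - s) := by
      rw [card_sdiff_of_subset, card_range, Nat.card_Ico]
      intro x hx
      rw [mem_Ico] at hx
      rw [mem_range]
      omega
    omega

end Pool.Agent.H564R3.GR
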