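import Pool.Agent.H564R3.GR.Gen2
import Pool.Agent.H564R3.GR.Sep
import Pool.Agent.H564R3.GR.Grids
import Pool.Agent.H564R3.GR.Route
import Pool.Agent.H564R3.PW.Num

/-! The lower bound for straight-line programs which produce the monotone lattice paths. -/

set_option autoImplicit false

namespace Pool.Agent.H564R3.GR

open Finset
open Pool.Agent.H564R3.PW (Instr runs exec syms)
open Pool.Agent.H564R3.TS

/-- the parts which are large enough for `sep_changes` -/
def MGood (n r m L : ℕ) (Ls : List (Finset (Fin (2 * n)))) : Prop :=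
  Ls.length = r ∧ PW.Priv (r * (4 * m) + (2 * n - (2 * m * L + m - m))) Ls ∧
    r * (4 * m) + (2 * n - (2 * m * L + m - m)) ≤ (univ \ PW.un Ls).card

theorem M_changes {n r m L : ℕ} (hr : 1 ≤ r) (hm : 1 ≤ m) (hn : m * (L + 1) ≤ n)
    (Ls : List (Finset (Fin (2 * n)))) (h : MGood n r m L Ls) :
    ∃ t : Fin r → ℕ, (∀ i, m ≤ t i ∧ t i + 1 < 2 * m * L + m ∧
      ∃ Z ∈ Ls, ∃ (h1 : t i < 2 * n) (h2 : t i + 1 < 2 * n),
        ¬ ((⟨t i, h1⟩ : Fin (2 * n)) ∈ Z ↔ (⟨t i + 1, h2⟩ : Fin (2 * n)) ∈ Z)) ∧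
      ∀ i j, i < j → t i + 4 * m ≤ t j := by
  refine sep_changes (2 * n) r (4 * m) m (2 * m * L + m) hr (by omega) ?_ Ls h.1 h.2.1 h.2.2
  have : m * (L + 1) = m * L + m := by ring
  have h2 : 2 * m * L = 2 * (m * L) := by ring
  omega

open Classical in
/-- the changes of a list of parts -/
noncomputable def Mt {n r m L : ℕ} (hr : 1 ≤ r) (hm : 1 ≤ m) (hn : m * (L + 1) ≤ n)
    (Ls : List (Finset (Fin (2 * n)))) : Fin r → ℕ :=
  if h : MGood n r m L Ls then Classical.choose (M_changes hr hm hn Ls h) else fun _ => 0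

theorem Mt_spec {n r m L : ℕ} (hr : 1 ≤ r) (hm : 1 ≤ m) (hn : m * (L + 1) ≤ n)
    (Ls : List (Finset (Fin (2 * n)))) (h : MGood n r m L Ls) :
    (∀ i, m ≤ Mt hr hm hn Ls i ∧ Mt hr hm hn Ls i + 1 < 2 * m * L + m ∧
      ∃ Z ∈ Ls, ∃ (h1 : Mt hr hm hn Ls i < 2 * n) (h2 : Mt hr hm hn Ls i + 1 < 2 * n),
        ¬ ((⟨Mt hr hm hn Ls i, h1⟩ : Fin (2 * n)) ∈ Z ↔
          (⟨Mt hr hm hn Ls i + 1, h2⟩ : Fin (2 * n)) ∈ Z)) ∧
      ∀ i j, i < j → Mt hr hm hn Ls i + 4 * m ≤ Mt hr hm hn Ls j := by
  have e : Mt hr hm hn Ls = Classical.choose (M_changes hr hm hn Ls h) := by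
    unfold Mt
    rw [dif_pos h]
  rw [e]
  exact Classical.choose_spec (M_changes hr hm hn Ls h)

theorem grid_lower {R ρ : Type} [Zero R] [Fintype ρ] [DecidableEq ρ] {n m : ℕ} (hm : 1 ≤ m)
    (p : List (Instr R (Edge n) ρ)) (o : ρ)
    (g1 : ∀ A ∈ (univ.filter (fun x : Fin (2 * n + 1) → Fin (n + 1) => IsPath x)).image gset,
      ind A ∈ syms p o)
    (g2 : ∀ u ∈ syms p o, ∃ A ∈ (univ.filter
      (fun x : Fin (2 * n + 1) → Fin (n + 1) => IsPath x)).image gset, ∀ x ∈ A, u x ≠ 0)
    (r : ℕ) (hr : 1 ≤ r) (hn : (8 * m * (r + 1) + 1) * 512 ^ r ≤ 2 * n) :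
    m ^ r ≤ (128 * Fintype.card ρ) ^ r * p.length ^ 2 := by
  classical
  have h512 : 1 ≤ 512 ^ r := Nat.one_le_pow _ _ (by norm_num)
  have hmn : m ≤ n := by
    have h1 : (8 * m * (r + 1) + 1) * 1 ≤ 2 * n := (Nat.mul_le_mul_left _ h512).trans hn
    have h2 : 8 * m * 1 ≤ 8 * m * (r + 1) := Nat.mul_le_mul_left _ (by omega)
    omega
  obtain ⟨L, hL⟩ : ∃ L, n / m = L + 1 := by
    have : 1 ≤ n / m := (Nat.one_le_div_iff (by omega)).2 hmn
    exact ⟨n / m - 1, by omega⟩
  have hLn : m * (L + 1) ≤ n := by rw [← hL]; exact Nat.mul_div_le n m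
  have hLn2 : n < m * (L + 1) + m := by
    rw [← hL]
    have := Nat.lt_mul_div_succ n (show 0 < m by omega)
    rw [Nat.mul_add, Nat.mul_one] at this
    exact this
  have hp : 1 ≤ p.length := by
    rcases p with _ | ⟨a, l⟩
    · have h1 := g1 (gset (route (n := n) (m := m) (L := L) (fun _ => ⟨0, hm⟩)))
        (mem_image_of_mem _ (by rw [mem_filter]; exact ⟨mem_univ _, route_path hm hLn _⟩))
      exact absurd h1 (Set.notMem_empty _)
    · simp
  have hT : Cov gpos (syms p o) := by
    intro u hu e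
    obtain ⟨A, hA, hAu⟩ := g2 u hu
    rw [mem_image] at hA
    obtain ⟨x, _, rfl⟩ := hA
    obtain ⟨y, hy, hey⟩ := (grid_exact x).cover e (mem_univ e)
    exact ⟨y, hAu y hy, hey⟩
  have hTp : ∀ u ∈ syms p o, ∃ χ : Fin (2 * n + 1) → Fin (n + 1), IsPath χ ∧
      ∀ d, u (gv χ d) ≠ 0 := by
    intro u hu
    obtain ⟨A, hA, hAu⟩ := g2 u hu
    rw [mem_image] at hA
    obtain ⟨χ, hχ, rfl⟩ := hA
    exact ⟨χ, (mem_filter.1 hχ).2, fun d => hAu _ (mem_image_of_mem _ (mem_univ d))⟩
  have hmem : ∀ φ : Fin (L + 1) → Fin m, ind (gset (route (n := n) φ)) ∈ syms p o := fun φ =>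
    g1 _ (mem_image_of_mem _ (by rw [mem_filter]; exact ⟨mem_univ _, route_path hm hLn φ⟩))
  have key : (m ^ 1) ^ r ≤ (64 * (2 * Fintype.card ρ)) ^ r * p.length ^ 2 := by
    refine PW.num_lower hr hp fun M hM hMT => ?_
    have hc := gen_count2 (V := Fin (L + 1)) (E := Fin (2 * n)) (K := Fin r → Bool) hm
      (sup := gpos) p o hT (fun φ => gset (route (n := n) φ))
      (fun φ => grid_exact _) hmem
      (r * (4 * m) + (2 * n - (2 * m * L + m - m))) M r 1 r
      (le_trans (Nat.mul_pos hr (by omega)) (Nat.le_add_right _ _)) hM hr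
      (fun Ls φ i => early φ (Mt hr hm hLn Ls i + 1))
      (by
        intro Ls hLl hP hE c
        obtain ⟨s1, s2⟩ := Mt_spec hr hm hLn Ls ⟨hLl, hP, hE⟩
        set t := Mt hr hm hLn Ls with ht
        -- the block of change `i`
        have hdiv : ∀ i, (t i + 1 - m) / (2 * m) + 1 < L + 1 := by
          intro i
          have h1 := (s1 i).2.1
          have h0 := (s1 i).1
          have h2 : t i + 1 - m < 2 * m * L := by omega
          have := Nat.div_lt_of_lt_mul h2
          omega
        let V : Fin r → ℕ := fun i =>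
          if c i = true then (t i + 1 - m) / (2 * m) else (t i + 1 - m) / (2 * m) + 1
        have hV : ∀ i, V i < L + 1 := by
          intro i
          have := hdiv i
          simp only [V]
          split_ifs <;> omega
        have hVlt : ∀ i j, i < j → V i < V j := by
          intro i j hij
          have h1 := s2 i j hij
          have h2 : (t i + 1 - m) / (2 * m) + 2 ≤ (t j + 1 - m) / (2 * m) := by
            have h3 : (t i + 1 - m) + 2 * (2 * m) ≤ t j + 1 - m := by
              have := (s1 i).1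
              omega
            calc (t i + 1 - m) / (2 * m) + 2
                = ((t i + 1 - m) + 2 * (2 * m)) / (2 * m) := by
                  rw [Nat.add_mul_div_right _ _ (by omega)]
              _ ≤ _ := Nat.div_le_div_right h3
          simp only [V]
          split_ifs <;> omega
        refine ⟨univ.image (fun i : Fin r => (⟨V i, hV i⟩ : Fin (L + 1))), ?_, ?_⟩
        · rw [card_image_of_injective, card_univ, Fintype.card_fin, one_mul]
          intro i j hij
          simp only [Fin.mk.injEq] at hij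
          rcases lt_trichotomy i j with h | h | h
          · exact absurd hij (ne_of_lt (hVlt i j h))
          · exact h
          · exact absurd hij.symm (ne_of_lt (hVlt j i h))
        · intro φ ψ hφ hψ hall v hv
          rw [mem_image] at hv
          obtain ⟨i, _, rfl⟩ := hv
          obtain ⟨Z, hZ, h1, h2, hne⟩ := (s1 i).2.2
          obtain ⟨Y, hY, Y', hY', hYZ, hYZ', hind⟩ := hall Z hZ
          have hx := grid_type hTp (route (n := n) φ) (route (n := n) ψ)
            (route_path hm hLn φ) (route_path hm hLn ψ) Y Y' hY hY' (hYZ.trans hYZ'.symm) hind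
            (t i) h1 h2 (by rw [hYZ]; exact hne)
          have hci : early φ (t i + 1) = c i := congrFun hφ i
          have hci' : early ψ (t i + 1) = c i := congrFun hψ i
          refine route_det hm hLn φ ψ (t i + 1) ?_ (s1 i).2.1 (by omega) hx
            (hci.trans hci'.symm) _ ?_
          · have := (s1 i).1
            omega
          · simp only [V, hci])
      hMT ?_
    · refine hc.trans (le_of_eq ?_)
      rw [Fintype.card_fun, Fintype.card_bool, Fintype.card_fin]
      ring
    · rw [Fintype.card_fin]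
      have h2 : (8 : ℕ) ^ r * 64 ^ r = 512 ^ r := by
        rw [← mul_pow]
        norm_num
      have h3 : r * (4 * m) + (2 * n - (2 * m * L + m - m)) ≤ 4 * m * (r + 1) := by
        have e1 : m * (L + 1) = m * L + m := by ring
        have e2 : 2 * m * L = 2 * (m * L) := by ring
        have e3 : 4 * m * (r + 1) = r * (4 * m) + 4 * m := by ring
        omega
      calc (2 * (r * (4 * m) + (2 * n - (2 * m * L + m - m))) + 1) * 8 ^ r * 64 ^ r
          = (2 * (r * (4 * m) + (2 * n - (2 * m * L + m - m))) + 1) * 512 ^ r := by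
            rw [mul_assoc, h2]
        _ ≤ (8 * m * (r + 1) + 1) * 512 ^ r := by
            refine Nat.mul_le_mul_right _ ?_
            have e4 : 8 * m * (r + 1) = 2 * (4 * m * (r + 1)) := by ring
            omega
        _ ≤ 2 * n := hn
  rw [pow_one] at key
  refine key.trans (le_of_eq ?_)
  ring

end Pool.Agent.H564R3.GR
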