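import Pool.Agent.H564R3.GR.Defs

/-! Stubs (statements only): every theorem goes to its own file, see `h564n_tasks`. -/

set_option autoImplicit false

namespace Pool.Agent.H564R3.GR

open Finset
open Pool.Agent.H564R3.PW (Instr runs exec syms)
open Pool.Agent.H564R3.TS

/-! ### A (Gen2.lean): counting with keys -/

theorem gen_count2 {R X E V ρ K : Type} [Zero R] [DecidableEq X] [Fintype E] [DecidableEq E]
    [Fintype V] [DecidableEq V] [Fintype ρ] [DecidableEq ρ] [Fintype K] [DecidableEq K] {m : ℕ}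
    (hm : 1 ≤ m) {sup : X → Finset E} (p : List (Instr R X ρ)) (o : ρ)
    (hT : Cov sup (syms p o)) (A : (V → Fin m) → Finset X)
    (hA : ∀ φ, Exact sup 1 univ (A φ)) (hmem : ∀ φ, ind (A φ) ∈ syms p o)
    (D M H k r : ℕ) (hD : 1 ≤ D) (hM : 1 ≤ M) (hr : 1 ≤ r)
    (key : List (Finset E) → (V → Fin m) → K)
    (hdet : ∀ L : List (Finset E), L.length = r → PW.Priv D L → D ≤ (univ \ PW.un L).card →
      ∀ c : K, ∃ Xs : Finset V, k * r ≤ Xs.card ∧ ∀ φ ψ : V → Fin m, key L φ = c → key L ψ = c →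
        (∀ Z ∈ L, ∃ Y ⊆ A φ, ∃ Y' ⊆ A ψ, Y.biUnion sup = Z ∧ Y'.biUnion sup = Z ∧
          ind (A φ \ Y) + ind Y' ∈ syms p o) → ∀ v ∈ Xs, φ v = ψ v)
    (hlen : p.length ≤ M ^ H) (hn : (2 * D + 1) * 8 ^ H * 64 ^ r ≤ Fintype.card E) :
    (m ^ k) ^ r ≤ (4 * M) ^ (H + r) * Fintype.card ρ ^ r * Fintype.card K := by
  sorry

/-! ### B (Sep.lean): separated changes -/

theorem sep_changes (N r g s e : ℕ) (hr : 1 ≤ r) (hg : 1 ≤ g) (he : e ≤ N)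
    (L : List (Finset (Fin N))) (hL : L.length = r)
    (hP : PW.Priv (r * g + (N - (e - s))) L) (hE : r * g + (N - (e - s)) ≤ (univ \ PW.un L).card) :
    ∃ t : Fin r → ℕ, (∀ i, s ≤ t i ∧ t i + 1 < e ∧
      ∃ Z ∈ L, ∃ (h1 : t i < N) (h2 : t i + 1 < N),
        ¬ ((⟨t i, h1⟩ : Fin N) ∈ Z ↔ (⟨t i + 1, h2⟩ : Fin N) ∈ Z)) ∧
      ∀ i j, i < j → t i + g ≤ t j := by
  sorry

/-! ### C (Grids.lean) -/

theorem grid_exact {n : ℕ} (x : Fin (2 * n + 1) → Fin (n + 1)) : Exact gpos 1 univ (gset x) := by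
  sorry

theorem grid_card {n : ℕ} (x : Fin (2 * n + 1) → Fin (n + 1)) : (gset x).card = 2 * n := by
  sorry

theorem grid_sum {R : Type} [CommSemiring R] {n : ℕ} (w : Edge n → R) :
    gridSum w = ∑ A ∈ (univ.filter (fun x : Fin (2 * n + 1) → Fin (n + 1) => IsPath x)).image gset,
      ∏ e ∈ A, w e := by
  sorry

theorem grid_type {n : ℕ} {T : Set (Edge n → ℕ)}
    (hT : ∀ u ∈ T, ∃ χ : Fin (2 * n + 1) → Fin (n + 1), IsPath χ ∧ ∀ d, u (gv χ d) ≠ 0)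
    (x x' : Fin (2 * n + 1) → Fin (n + 1)) (hx : IsPath x) (hx' : IsPath x')
    (Y Z : Finset (Edge n)) (hY : Y ⊆ gset x)
    (hZ : Z ⊆ gset x') (hpos : Y.biUnion gpos = Z.biUnion gpos)
    (h : ind (gset x \ Y) + ind Z ∈ T) (d : ℕ) (h1 : d < 2 * n) (h2 : d + 1 < 2 * n)
    (hd : ¬ ((⟨d, h1⟩ : Fin (2 * n)) ∈ Y.biUnion gpos ↔
      (⟨d + 1, h2⟩ : Fin (2 * n)) ∈ Y.biUnion gpos)) :
    x ⟨d + 1, by omega⟩ = x' ⟨d + 1, by omega⟩ := by
  sorry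

/-! ### D (Route.lean) -/

theorem route_path {n m L : ℕ} (hm : 1 ≤ m) (hn : m * (L + 1) ≤ n) (φ : Fin (L + 1) → Fin m) :
    IsPath (route (n := n) φ) := by
  sorry

theorem route_det {n m L : ℕ} (hm : 1 ≤ m) (hn : m * (L + 1) ≤ n) (φ ψ : Fin (L + 1) → Fin m)
    (d : ℕ) (hd1 : m ≤ d) (hd2 : d < 2 * m * L + m) (hd : d < 2 * n + 1)
    (hxy : route (n := n) φ ⟨d, hd⟩ = route (n := n) ψ ⟨d, hd⟩)
    (hk : early φ d = early ψ d) (v : Fin (L + 1))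
    (hv : v.val = if early φ d = true then (d - m) / (2 * m) else (d - m) / (2 * m) + 1) :
    φ v = ψ v := by
  sorry

/-! ### F (Upper.lean): the row by row algorithm -/

theorem grid_upper {R : Type} [CommSemiring R] (n : ℕ) :
    ∃ (ρ : Type) (_ : Fintype ρ) (_ : DecidableEq ρ) (p : List (Instr R (Edge n) ρ)) (o : ρ),
      Fintype.card ρ = n + 4 ∧ p.length ≤ 10 * (n + 1) ^ 2 ∧
      ∀ w : Edge n → R, exec w p o = gridSum w := by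
  sorry

/-! ### H (Num.lean) -/

theorem grid_num (c : ℕ) (ε : ℝ) (hε : 0 < ε) : ∃ n₀ : ℕ, ∀ n ≥ n₀, ∀ S T : ℕ,
    (∀ m r : ℕ, 1 ≤ m → 1 ≤ r → (8 * m * (r + 1) + 1) * 512 ^ r ≤ 2 * n →
      m ^ r ≤ (128 * S) ^ r * T ^ 2) →
    (T : ℝ) ≤ (n : ℝ) ^ c → (n : ℝ) ^ (1 - ε) ≤ S := by
  sorry

end Pool.Agent.H564R3.GR
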