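import Pool.Agent.H564R3.GR.Defs
import Pool.Agent.H564R3.PW.Prog

/-! The row by row algorithm for grids: `n + 4` registers, at most `10 (n + 1) ^ 2` instructions. -/

set_option autoImplicit false

namespace Pool.Agent.H564R3.GR

open Finset
open Pool.Agent.H564R3.PW (Instr runs exec syms L1_runs_append L1_runs_cons L1_runs_nil
  L1_len_flatMap)
open Pool.Agent.H564R3.TS

section GRF

/-! ### transfer matrices -/

/-- iterated transfer -/
def GRF_V {R A : Type} [CommSemiring R] [Fintype A] (φ : A → R) (K : ℕ → A → A → R) : ℕ → A → R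
  | 0 => φ
  | N + 1 => fun b => ∑ a, GRF_V φ K N a * K N a b

theorem GRF_transfer {R A : Type} [CommSemiring R] [Fintype A] (φ : A → R) (K : ℕ → A → A → R) :
    ∀ (N : ℕ) (ψ : A → R),
      ∑ x : Fin (N + 1) → A, φ (x 0) * (∏ d : Fin N, K d (x d.castSucc) (x d.succ)) *
        ψ (x (Fin.last N)) = ∑ b, GRF_V φ K N b * ψ b := by
  intro N
  induction N with
  | zero =>
    intro ψ
    refine Fintype.sum_equiv (Equiv.funUnique (Fin 1) A) _ _ (fun x => ?_)
    simp [GRF_V]
  | succ N ih =>
    intro ψ
    rw [← (Fin.snocEquiv (fun _ : Fin (N + 2) => A)).sum_comp, Fintype.sum_prod_type_right]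
    have h1 : ∀ (y : Fin (N + 1) → A), ∑ b : A,
        φ ((Fin.snocEquiv (fun _ : Fin (N + 2) => A)) (b, y) 0) *
          (∏ d : Fin (N + 1), K d ((Fin.snocEquiv (fun _ : Fin (N + 2) => A)) (b, y) d.castSucc)
            ((Fin.snocEquiv (fun _ : Fin (N + 2) => A)) (b, y) d.succ)) *
          ψ ((Fin.snocEquiv (fun _ : Fin (N + 2) => A)) (b, y) (Fin.last (N + 1))) =
        φ (y 0) * (∏ d : Fin N, K d (y d.castSucc) (y d.succ)) *
          (∑ b, K N (y (Fin.last N)) b * ψ b) := by
      intro y
      rw [Finset.mul_sum]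
      refine Finset.sum_congr rfl (fun b _ => ?_)
      have e0 : (Fin.snocEquiv (fun _ : Fin (N + 2) => A)) (b, y) 0 = y 0 := by
        have : (0 : Fin (N + 2)) = (0 : Fin (N + 1)).castSucc := rfl
        rw [this]
        simp [Fin.snocEquiv]
      have el : (Fin.snocEquiv (fun _ : Fin (N + 2) => A)) (b, y) (Fin.last (N + 1)) = b := by
        simp [Fin.snocEquiv]
      have ec : ∀ i : Fin (N + 1),
          (Fin.snocEquiv (fun _ : Fin (N + 2) => A)) (b, y) i.castSucc = y i := by
        intro i
        simp [Fin.snocEquiv]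
      rw [e0, el, Fin.prod_univ_castSucc]
      have hp : ∀ d : Fin N, K (d.castSucc : Fin (N + 1))
          ((Fin.snocEquiv (fun _ : Fin (N + 2) => A)) (b, y) d.castSucc.castSucc)
          ((Fin.snocEquiv (fun _ : Fin (N + 2) => A)) (b, y) d.castSucc.succ) =
          K d (y d.castSucc) (y d.succ) := by
        intro d
        rw [ec, Fin.succ_castSucc, ec, Fin.val_castSucc]
      rw [Finset.prod_congr rfl (fun d _ => hp d), ec, Fin.succ_last, el, Fin.val_last]
      ring
    rw [Finset.sum_congr rfl (fun y _ => h1 y), ih (fun a => ∑ b, K N a b * ψ b)]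
    simp only [GRF_V, Finset.mul_sum, Finset.sum_mul]
    rw [Finset.sum_comm]
    refine Finset.sum_congr rfl (fun b _ => Finset.sum_congr rfl (fun a _ => ?_))
    ring

variable {R : Type} [CommSemiring R]

/-! ### the recursion -/

/-- the weights as a function on natural numbers -/
def GRF_W {n : ℕ} (w : Edge n → R) (d x : ℕ) (b : Bool) : R :=
  if h : d < 2 * n then w (⟨d, h⟩, Fin.ofNat (n + 1) x, b) else 0

/-- the sum over the monotone paths from the origin with `d` steps to column `x` -/
def GRF_F {n : ℕ} (w : Edge n → R) : ℕ → ℕ → R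
  | 0, x => if x = 0 then 1 else 0
  | d + 1, 0 => GRF_W w d 0 true * GRF_F w d 0
  | d + 1, x + 1 => GRF_W w d (x + 1) true * GRF_F w d (x + 1) + GRF_W w d x false * GRF_F w d x

/-- the transfer matrix -/
def GRF_K {n : ℕ} (w : Edge n → R) (d : ℕ) (a b : Fin (n + 1)) : R :=
  if b = a then GRF_W w d a true else if b.val = a.val + 1 then GRF_W w d a false else 0

theorem GRF_V_eq {n : ℕ} (w : Edge n → R) : ∀ (d : ℕ) (b : Fin (n + 1)),
    GRF_V (fun a : Fin (n + 1) => if a.val = 0 then (1 : R) else 0) (GRF_K w) d b =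
      GRF_F w d b.val := by
  intro d
  induction d with
  | zero => intro b; rfl
  | succ d ih =>
    intro b
    have h1 : GRF_V (fun a : Fin (n + 1) => if a.val = 0 then (1 : R) else 0) (GRF_K w) (d + 1) b =
        ∑ a : Fin (n + 1), GRF_F w d a.val * GRF_K w d a b := by
      show ∑ a, _ = _
      exact Finset.sum_congr rfl (fun a _ => by rw [ih])
    rw [h1]
    have h2 : ∀ a : Fin (n + 1), GRF_F w d a.val * GRF_K w d a b =
        (if b = a then GRF_F w d a.val * GRF_W w d a true else 0) +
        (if b.val = a.val + 1 then GRF_F w d a.val * GRF_W w d a false else 0) := by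
      intro a
      unfold GRF_K
      by_cases hb : b = a
      · have hb' : ¬ b.val = a.val + 1 := by rw [hb]; omega
        rw [if_pos hb, if_pos hb, if_neg hb', add_zero]
      · rw [if_neg hb, if_neg hb, zero_add]
        split_ifs
        · rfl
        · rw [mul_zero]
    rw [Finset.sum_congr rfl (fun a _ => h2 a), Finset.sum_add_distrib, Finset.sum_ite_eq,
      if_pos (Finset.mem_univ _)]
    obtain ⟨b, hb⟩ := b
    match b, hb with
    | 0, hb =>
      have h3 : ∑ a : Fin (n + 1), (if (⟨0, hb⟩ : Fin (n + 1)).val = a.val + 1 then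
          GRF_F w d a.val * GRF_W w d a false else 0) = 0 :=
        Finset.sum_eq_zero (fun a _ => by rw [if_neg (by simp)])
      rw [h3, add_zero]
      simp only [GRF_F]
      ring
    | b + 1, hb =>
      have h3 : ∑ a : Fin (n + 1), (if (⟨b + 1, hb⟩ : Fin (n + 1)).val = a.val + 1 then
          GRF_F w d a.val * GRF_W w d a false else 0) = GRF_F w d b * GRF_W w d b false := by
        rw [Finset.sum_eq_single (⟨b, by omega⟩ : Fin (n + 1))]
        · simp
        · intro a _ ha
          rw [if_neg]
          intro h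
          apply ha
          apply Fin.ext
          simp only at h ⊢
          omega
        · intro h
          exact absurd (Finset.mem_univ _) h
      rw [h3]
      simp only [GRF_F]
      ring

theorem GRF_gridSum {n : ℕ} (w : Edge n → R) : gridSum w = GRF_F w (2 * n) n := by
  have h0 := GRF_transfer (fun a : Fin (n + 1) => if a.val = 0 then (1 : R) else 0) (GRF_K w)
    (2 * n) (fun a : Fin (n + 1) => if a.val = n then (1 : R) else 0)
  have h1 : ∑ b : Fin (n + 1), GRF_V (fun a : Fin (n + 1) => if a.val = 0 then (1 : R) else 0)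
      (GRF_K w) (2 * n) b * (if b.val = n then (1 : R) else 0) = GRF_F w (2 * n) n := by
    rw [Finset.sum_eq_single (Fin.last n)]
    · rw [GRF_V_eq, Fin.val_last, if_pos rfl, mul_one]
    · intro b _ hb
      rw [if_neg, mul_zero]
      intro h
      exact hb (Fin.ext (by rw [h, Fin.val_last]))
    · intro h
      exact absurd (Finset.mem_univ _) h
  rw [h1] at h0
  rw [← h0, gridSum, Finset.sum_filter]
  refine Finset.sum_congr rfl (fun x _ => ?_)
  by_cases hx : IsPath x
  · rw [if_pos hx]
    obtain ⟨hx0, hxn, hxs⟩ := hx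
    rw [if_pos hx0, if_pos hxn, one_mul, mul_one]
    refine Finset.prod_congr rfl (fun d _ => ?_)
    have hW : ∀ b : Bool, GRF_W w d (x d.castSucc) b = w (d, x d.castSucc, b) := by
      intro b
      unfold GRF_W
      rw [dif_pos d.2]
      congr 3
      apply Fin.ext
      simp only [Fin.ofNat_eq_cast, Fin.val_natCast]
      rw [Nat.mod_eq_of_lt (x d.castSucc).2]
    unfold gv GRF_K
    by_cases hd : x d.succ = x d.castSucc
    · rw [if_pos hd, hW]
      simp [hd]
    · rw [if_neg hd]
      have h2 : (x d.succ).val = (x d.castSucc).val + 1 := by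
        rcases hxs d with h | h
        · exact absurd (Fin.ext h) hd
        · exact h
      rw [if_pos h2, hW]
      simp [hd]
  · rw [if_neg hx]
    by_cases hx0 : (x 0).val = 0
    · by_cases hxn : (x (Fin.last (2 * n))).val = n
      · have h3 : ∃ d : Fin (2 * n), ¬ ((x d.succ).val = (x d.castSucc).val ∨
            (x d.succ).val = (x d.castSucc).val + 1) := by
          by_contra h
          apply hx
          refine ⟨hx0, hxn, fun d => ?_⟩
          by_contra h'
          exact h ⟨d, h'⟩
        obtain ⟨d, hd⟩ := h3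
        push Not at hd
        have h4 : ∏ d : Fin (2 * n), GRF_K w d (x d.castSucc) (x d.succ) = 0 := by
          apply Finset.prod_eq_zero (Finset.mem_univ d)
          unfold GRF_K
          rw [if_neg (fun h => hd.1 (by rw [h])), if_neg hd.2]
        rw [h4, mul_zero, zero_mul]
      · rw [if_neg hxn, mul_zero]
    · rw [if_neg hx0, zero_mul, zero_mul]

/-! ### the program -/

/-- the registers -/
abbrev GRF_reg (n : ℕ) : Type := Fin (n + 1) ⊕ Fin 3

/-- the register of a column -/
def GRF_cell (n x : ℕ) : GRF_reg n := Sum.inl (Fin.ofNat (n + 1) x)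

theorem GRF_cell_inj {n x y : ℕ} (hx : x ≤ n) (hy : y ≤ n) (h : GRF_cell n x = GRF_cell n y) :
    x = y := by
  unfold GRF_cell at h
  have h2 := congrArg Fin.val (Sum.inl.inj h)
  simp only [Fin.ofNat_eq_cast, Fin.val_natCast] at h2
  rwa [Nat.mod_eq_of_lt (by omega), Nat.mod_eq_of_lt (by omega)] at h2

variable (R) in
/-- the program of a cell -/
def GRF_blk (n : ℕ) (d : Fin (2 * n)) : ℕ → List (Instr R (Edge n) (GRF_reg n))
  | 0 => [Instr.load (Sum.inr 0) (d, Fin.ofNat (n + 1) 0, true),
      Instr.mul (GRF_cell n 0) (Sum.inr 0) (GRF_cell n 0)]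
  | x + 1 => [Instr.load (Sum.inr 0) (d, Fin.ofNat (n + 1) (x + 1), true),
      Instr.mul (GRF_cell n (x + 1)) (Sum.inr 0) (GRF_cell n (x + 1)),
      Instr.load (Sum.inr 0) (d, Fin.ofNat (n + 1) x, false),
      Instr.mul (Sum.inr 0) (Sum.inr 0) (GRF_cell n x),
      Instr.add (GRF_cell n (x + 1)) (GRF_cell n (x + 1)) (Sum.inr 0)]

variable (R) in
/-- the program of a step -/
def GRF_stage (n d : ℕ) : List (Instr R (Edge n) (GRF_reg n)) :=
  if h : d < 2 * n then (List.range (n + 1)).flatMap (fun i => GRF_blk R n ⟨d, h⟩ (n - i)) else []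

variable (R) in
/-- the program -/
def GRF_prog (n D : ℕ) : List (Instr R (Edge n) (GRF_reg n)) :=
  Instr.const (GRF_cell n 0) 1 :: (List.range D).flatMap (GRF_stage R n)

/-- the invariant -/
def GRF_Inv {n : ℕ} (w : Edge n → R) (D I : ℕ) (v : GRF_reg n → R) : Prop :=
  ∀ x, x ≤ n → v (GRF_cell n x) = if n < x + I then GRF_F w (D + 1) x else GRF_F w D x

theorem GRF_blk_run {n : ℕ} (w : Edge n → R) (D I : ℕ) (hD : D < 2 * n) (hI : I ≤ n)
    (v : GRF_reg n → R) (hv : GRF_Inv w D I v) :
    GRF_Inv w D (I + 1) (runs w (GRF_blk R n ⟨D, hD⟩ (n - I)) v) := by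
  obtain ⟨X, hX⟩ : ∃ X, X = n - I := ⟨_, rfl⟩
  rw [← hX]
  have hXv : v (GRF_cell n X) = GRF_F w D X := by
    rw [hv X (by omega), if_neg (by omega)]
  have hW : ∀ (x : ℕ) (b : Bool), w (⟨D, hD⟩, Fin.ofNat (n + 1) x, b) = GRF_W w D x b := by
    intro x b
    unfold GRF_W
    rw [dif_pos hD]
  have key : runs w (GRF_blk R n ⟨D, hD⟩ X) v (GRF_cell n X) = GRF_F w (D + 1) X ∧
      ∀ y, y ≤ n → y ≠ X → runs w (GRF_blk R n ⟨D, hD⟩ X) v (GRF_cell n y) = v (GRF_cell n y) := by
    match X, hX, hXv with
    | 0, hX, hXv =>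
      have c0 : GRF_cell n 0 ≠ Sum.inr 0 := by simp [GRF_cell]
      unfold GRF_blk
      rw [L1_runs_cons, L1_runs_cons, L1_runs_nil]
      simp only [Instr.run]
      refine ⟨?_, fun y hy hne => ?_⟩
      · rw [Function.update_self, Function.update_self, Function.update_of_ne c0, hXv, hW]
        simp only [GRF_F]
      · rw [Function.update_of_ne (fun h => hne (GRF_cell_inj hy (Nat.zero_le _) h)),
          Function.update_of_ne (by simp [GRF_cell])]
    | X + 1, hX, hXv =>
      have c1 : GRF_cell n (X + 1) ≠ Sum.inr 0 := by simp [GRF_cell]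
      have c2 : GRF_cell n X ≠ Sum.inr 0 := by simp [GRF_cell]
      have c3 : GRF_cell n X ≠ GRF_cell n (X + 1) := by
        intro h
        have := GRF_cell_inj (by omega) (by omega) h
        omega
      have hXv' : v (GRF_cell n X) = GRF_F w D X := by
        rw [hv X (by omega), if_neg (by omega)]
      unfold GRF_blk
      rw [L1_runs_cons, L1_runs_cons, L1_runs_cons, L1_runs_cons, L1_runs_cons, L1_runs_nil]
      simp only [Instr.run]
      refine ⟨?_, fun y hy hne => ?_⟩
      · simp only [Function.update_self, Function.update_of_ne c1, Function.update_of_ne c2,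
          Function.update_of_ne c3, Function.update_of_ne c1.symm, hXv, hXv', hW]
        simp only [GRF_F]
      · have cy : GRF_cell n y ≠ Sum.inr 0 := by simp [GRF_cell]
        have cy' : GRF_cell n y ≠ GRF_cell n (X + 1) := fun h =>
          hne (GRF_cell_inj hy (by omega) h)
        simp only [Function.update_of_ne cy, Function.update_of_ne cy']
  intro x hx
  by_cases h : x = X
  · rw [h, key.1, if_pos (by omega)]
  · rw [key.2 x hx h, hv x hx]
    congr 1
    apply propext
    omega

theorem GRF_stage_run {n : ℕ} (w : Edge n → R) (D : ℕ) (hD : D < 2 * n) (v : GRF_reg n → R)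
    (hv : GRF_Inv w D 0 v) : ∀ I ≤ n + 1,
    GRF_Inv w D I (runs w ((List.range I).flatMap (fun i => GRF_blk R n ⟨D, hD⟩ (n - i))) v) := by
  intro I
  induction I with
  | zero => intro _; exact hv
  | succ I ih =>
    intro hI
    rw [List.range_succ, List.flatMap_append, L1_runs_append, List.flatMap_singleton]
    exact GRF_blk_run w D I hD (by omega) _ (ih (by omega))

theorem GRF_prog_run {n : ℕ} (w : Edge n → R) : ∀ D ≤ 2 * n,
    GRF_Inv w D 0 (exec w (GRF_prog R n D)) := by
  intro D
  induction D with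
  | zero =>
    intro _ x hx
    rw [if_neg (by omega)]
    unfold exec GRF_prog
    rw [L1_runs_cons, List.range_zero, List.flatMap_nil, L1_runs_nil]
    simp only [Instr.run, GRF_F]
    by_cases h : x = 0
    · rw [h, Function.update_self, if_pos rfl]
    · rw [Function.update_of_ne (fun h' => h (GRF_cell_inj hx (Nat.zero_le _) h')), if_neg h]
  | succ D ih =>
    intro hD
    have h1 : exec w (GRF_prog R n (D + 1)) =
        runs w (GRF_stage R n D) (exec w (GRF_prog R n D)) := by
      unfold exec GRF_prog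
      rw [List.range_succ, List.flatMap_append, L1_runs_cons, L1_runs_cons, L1_runs_append,
        List.flatMap_singleton]
    rw [h1]
    have h2 := GRF_stage_run w D (by omega) (exec w (GRF_prog R n D)) (ih (by omega)) (n + 1) le_rfl
    intro x hx
    have h3 := h2 x hx
    unfold GRF_stage
    rw [dif_pos (by omega), h3, if_pos (by omega), if_neg (by omega)]

theorem GRF_blk_length (n : ℕ) (d : Fin (2 * n)) (x : ℕ) : (GRF_blk R n d x).length ≤ 5 := by
  match x with
  | 0 => simp only [GRF_blk, List.length_cons, List.length_nil]; omega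
  | x + 1 => simp only [GRF_blk, List.length_cons, List.length_nil]; omega

theorem GRF_stage_length (n d : ℕ) : (GRF_stage R n d).length ≤ (n + 1) * 5 := by
  unfold GRF_stage
  split_ifs with h
  · refine (L1_len_flatMap (fun i => GRF_blk R n ⟨d, h⟩ (n - i)) (List.range (n + 1)) 5
      (fun i => GRF_blk_length n _ _)).trans ?_
    rw [List.length_range]
  · simp

theorem GRF_prog_length (n D : ℕ) : (GRF_prog R n D).length ≤ D * ((n + 1) * 5) + 1 := by
  unfold GRF_prog
  rw [List.length_cons]
  refine Nat.succ_le_succ ((L1_len_flatMap (GRF_stage R n) (List.range D) ((n + 1) * 5)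
    (GRF_stage_length n)).trans ?_)
  rw [List.length_range]

end GRF

theorem grid_upper {R : Type} [CommSemiring R] (n : ℕ) :
    ∃ (ρ : Type) (_ : Fintype ρ) (_ : DecidableEq ρ) (p : List (Instr R (Edge n) ρ)) (o : ρ),
      Fintype.card ρ = n + 4 ∧ p.length ≤ 10 * (n + 1) ^ 2 ∧
      ∀ w : Edge n → R, exec w p o = gridSum w := by
  refine ⟨GRF_reg n, inferInstance, inferInstance, GRF_prog R n (2 * n), GRF_cell n n, ?_, ?_, ?_⟩
  · rw [Fintype.card_sum, Fintype.card_fin, Fintype.card_fin]
  · refine (GRF_prog_length n (2 * n)).trans ?_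
    nlinarith
  · intro w
    rw [GRF_prog_run w (2 * n) le_rfl n le_rfl, if_neg (by omega), GRF_gridSum]

end Pool.Agent.H564R3.GR
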